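import Mathlib

set_option autoImplicit false

namespace Pool.Agent.Helper24.Snev

open Polynomial Finset

variable {n : ℕ} [NeZero n] {K : Type*} [Field K]

/-- The shift operator on functions on `ZMod n`. -/
noncomputable def S (n : ℕ) (K : Type*) [Field K] : Module.End K (ZMod n → K) :=
  LinearMap.funLeft K K (fun g => g - 1)

omit [NeZero n] in
lemma S_pow_apply (j : ℕ) (w : ZMod n → K) (g : ZMod n) :
    ((S n K) ^ j) w g = w (g - (j : ZMod n)) := by
  induction j generalizing w g with
  | zero => simp
  | succ j ih =>
    rw [pow_succ, Module.End.mul_apply, ih]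
    show w (g - (j : ZMod n) - 1) = _
    congr 1
    push_cast
    ring

omit [NeZero n] in
lemma aeval_S_apply (f : K[X]) (w : ZMod n → K) (g : ZMod n) :
    (aeval (S n K) f) w g = ∑ j ∈ range (f.natDegree + 1), f.coeff j * w (g - (j : ZMod n)) := by
  rw [Polynomial.aeval_eq_sum_range, LinearMap.sum_apply, Finset.sum_apply]
  refine Finset.sum_congr rfl fun j _ => ?_
  rw [LinearMap.smul_apply, Pi.smul_apply, S_pow_apply, smul_eq_mul]

/-- The window lemma: a solution of a monic recurrence of order `d` vanishing on `d` consecutive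
residues is zero. -/
lemma window {f : K[X]} (hf : f.Monic) {w : ZMod n → K} (hw : (aeval (S n K) f) w = 0)
    (g₀ : ZMod n) (h0 : ∀ j < f.natDegree, w (g₀ - (j : ZMod n)) = 0) : w = 0 := by
  have key : ∀ m : ℕ, w (g₀ - (m : ZMod n)) = 0 := by
    intro m
    induction m using Nat.strong_induction_on with
    | _ m ih =>
      by_cases hm : m < f.natDegree
      · exact h0 m hm
      · push Not at hm
        have h1 := congrFun hw (g₀ - ((m - f.natDegree : ℕ) : ZMod n))
        rw [aeval_S_apply, Finset.sum_range_succ, hf.coeff_natDegree, one_mul] at h1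
        rw [Finset.sum_eq_zero, zero_add] at h1
        · have : g₀ - ((m - f.natDegree : ℕ) : ZMod n) - (f.natDegree : ZMod n)
              = g₀ - (m : ZMod n) := by
            rw [Nat.cast_sub hm]; ring
          rw [this] at h1
          simpa using h1
        · intro j hj
          rw [Finset.mem_range] at hj
          have : g₀ - ((m - f.natDegree : ℕ) : ZMod n) - (j : ZMod n)
              = g₀ - ((m - f.natDegree + j : ℕ) : ZMod n) := by
            push_cast; ring
          rw [this, ih _ (by omega), mul_zero]
  funext g
  have := key (g₀ - g).val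
  rw [ZMod.natCast_zmod_val] at this
  simpa using this

/-- Functions supported on `A`. -/
def supp (A : Finset (ZMod n)) : Submodule K (ZMod n → K) where
  carrier := {w | ∀ g, g ∉ A → w g = 0}
  add_mem' := by
    intro a b ha hb g hg
    simp [ha g hg, hb g hg]
  zero_mem' := by intro g _; rfl
  smul_mem' := by
    intro c a ha g hg
    simp [ha g hg]

/-- Solutions of the recurrence `f` supported on `A`. -/
noncomputable def code (f : K[X]) (A : Finset (ZMod n)) : Submodule K (ZMod n → K) :=
  supp A ⊓ LinearMap.ker (aeval (S n K) f)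

lemma finrank_code_le_window {f : K[X]} (hf : f.Monic) (A : Finset (ZMod n)) (g₀ : ZMod n) :
    Module.finrank K (code f A) ≤
      (A.filter (fun a => ∃ j < f.natDegree, a = g₀ - (j : ZMod n))).card := by
  set J := A.filter (fun a => ∃ j < f.natDegree, a = g₀ - (j : ZMod n)) with hJ
  let φ : code f A →ₗ[K] (J → K) :=
    (LinearMap.funLeft K K (fun x : J => (x : ZMod n))).comp (code f A).subtype
  have hinj : Function.Injective φ := by
    rw [← LinearMap.ker_eq_bot, LinearMap.ker_eq_bot']
    rintro ⟨w, hw⟩ h
    obtain ⟨hw1, hw2⟩ := Submodule.mem_inf.mp hw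
    rw [LinearMap.mem_ker] at hw2
    have : w = 0 := by
      apply window hf hw2 g₀
      intro j hj
      by_cases hA : g₀ - (j : ZMod n) ∈ A
      · have hm : g₀ - (j : ZMod n) ∈ J := by
          rw [hJ, Finset.mem_filter]
          exact ⟨hA, j, hj, rfl⟩
        have := congrFun h ⟨_, hm⟩
        exact this
      · exact hw1 _ hA
    exact Subtype.ext this
  have := LinearMap.finrank_le_finrank_of_injective hinj
  simpa using this

lemma finrank_code_mul_le {f : K[X]} (hf : f.Monic) (A : Finset (ZMod n)) :
    n * Module.finrank K (code f A) ≤ f.natDegree * A.card := by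
  have h1 : ∑ g₀ : ZMod n, (A.filter (fun a => ∃ j < f.natDegree, a = g₀ - (j : ZMod n))).card
      ≤ f.natDegree * A.card := by
    have h2 : ∀ g₀ : ZMod n,
        (A.filter (fun a => ∃ j < f.natDegree, a = g₀ - (j : ZMod n))).card
        ≤ ∑ j ∈ range f.natDegree, (A.filter (fun a => a = g₀ - (j : ZMod n))).card := by
      intro g₀
      have : (A.filter (fun a => ∃ j < f.natDegree, a = g₀ - (j : ZMod n))) ⊆
          (range f.natDegree).biUnion (fun j => A.filter (fun a => a = g₀ - (j : ZMod n))) := by
        intro a ha
        rw [Finset.mem_filter] at ha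
        obtain ⟨ha, j, hj, rfl⟩ := ha
        rw [Finset.mem_biUnion]
        exact ⟨j, Finset.mem_range.mpr hj, Finset.mem_filter.mpr ⟨ha, rfl⟩⟩
      exact (Finset.card_le_card this).trans Finset.card_biUnion_le
    calc _ ≤ ∑ g₀ : ZMod n, ∑ j ∈ range f.natDegree,
          (A.filter (fun a => a = g₀ - (j : ZMod n))).card := Finset.sum_le_sum fun g _ => h2 g
      _ = ∑ j ∈ range f.natDegree, ∑ g₀ : ZMod n,
          (A.filter (fun a => a = g₀ - (j : ZMod n))).card := Finset.sum_comm
      _ = ∑ j ∈ range f.natDegree, A.card := by
          refine Finset.sum_congr rfl fun j _ => ?_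
          simp_rw [Finset.card_filter]
          rw [Finset.sum_comm]
          have : ∀ a ∈ A, ∑ g₀ : ZMod n, (if a = g₀ - (j : ZMod n) then 1 else 0) = 1 := by
            intro a _
            have h : ∀ g₀ : ZMod n, (a = g₀ - (j : ZMod n)) ↔ (g₀ = a + (j : ZMod n)) :=
              fun g₀ => ⟨fun h => by rw [h]; ring, fun h => by rw [h]; ring⟩
            simp_rw [h]
            simp
          rw [Finset.sum_congr rfl this]
          simp
      _ = _ := by simp
  have h3 : ∑ _g₀ : ZMod n, Module.finrank K (code f A) ≤ f.natDegree * A.card :=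
    (Finset.sum_le_sum fun g _ => finrank_code_le_window hf A g).trans h1
  simpa [ZMod.card] using h3

end Pool.Agent.Helper24.Snev
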