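import Mathlib
import Pool.Agent.Helper24.Snev.Cyc

set_option autoImplicit false

namespace Pool.Agent.Helper24.Snev

open Polynomial Finset

variable {n : ℕ} [NeZero n]

section basics

variable {K : Type*} [Field K]

/-- The polynomial attached to a function on `ZMod n`. -/
noncomputable def pol (v : ZMod n → K) : K[X] := ∑ c : ZMod n, C (v c) * X ^ c.val

lemma aeval_pol (v w : ZMod n → K) (g : ZMod n) :
    (aeval (S n K) (pol v)) w g = ∑ c : ZMod n, v c * w (g - c) := by
  rw [pol, map_sum, LinearMap.sum_apply, Finset.sum_apply]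
  refine Finset.sum_congr rfl fun c _ => ?_
  rw [map_mul, aeval_C, map_pow, aeval_X, Module.End.mul_apply, Module.algebraMap_end_apply,
    Pi.smul_apply, S_pow_apply, ZMod.natCast_zmod_val, smul_eq_mul]

omit [NeZero n] in
lemma aeval_X_pow_sub_one (w : ZMod n → K) : (aeval (S n K) (X ^ n - 1 : K[X])) w = 0 := by
  funext g
  rw [map_sub, map_pow, aeval_X, map_one, LinearMap.sub_apply, Pi.sub_apply, S_pow_apply]
  simp

/-- The pairing attached to `T`. -/
noncomputable def bil (T : ZMod n → K) :
    (ZMod n → K) →ₗ[K] (ZMod n → K) →ₗ[K] K :=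
  LinearMap.mk₂ K (fun v w => ∑ c : ZMod n, v c * ∑ g : ZMod n, w g * T (g + c))
    (by intro v v' w; simp [add_mul, Finset.sum_add_distrib])
    (by intro r v w; simp [mul_assoc, Finset.mul_sum])
    (by intro v w w'; simp [add_mul, mul_add, Finset.sum_add_distrib])
    (by intro r v w; simp only [Pi.smul_apply, smul_eq_mul, Finset.mul_sum]
        refine Finset.sum_congr rfl fun c _ => Finset.sum_congr rfl fun g _ => ?_
        ring)

lemma bil_apply (T v w : ZMod n → K) :
    bil T v w = ∑ c : ZMod n, v c * ∑ g : ZMod n, w g * T (g + c) := rfl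

omit [NeZero n] in
lemma finrank_supp (A : Finset (ZMod n)) :
    Module.finrank K (supp A : Submodule K (ZMod n → K)) = A.card := by
  let e : (supp A : Submodule K (ZMod n → K)) ≃ₗ[K] (A → K) :=
    { toFun := fun w a => w.1 a
      map_add' := fun _ _ => rfl
      map_smul' := fun _ _ => rfl
      invFun := fun u => ⟨fun g => if h : g ∈ A then u ⟨g, h⟩ else 0, by
        intro g hg
        simp [hg]⟩
      left_inv := by
        intro w
        apply Subtype.ext
        funext g
        by_cases h : g ∈ A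
        · simp [h]
        · simp [h, w.2 g h]
      right_inv := by
        intro u
        funext a
        simp }
  rw [e.finrank_eq]
  simp

end basics

variable {F : Type*} [Field F] {K : Type*} [Field K]

/-- Polynomial vectors supported on `A` killed by the columns in `B`. -/
def LK (F : Type*) [Field F] (A B : Finset (ZMod n)) : Set (ZMod n → MvPolynomial (ZMod n) F) :=
  {w | (∀ g, g ∉ A → w g = 0) ∧ ∀ c ∈ B, ∑ g : ZMod n, w g * MvPolynomial.X (g + c) = 0}

/-- The ideal of recurrences killing all of `LK`. -/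
noncomputable def ann (ι : MvPolynomial (ZMod n) F →+* K) (A B : Finset (ZMod n)) :
    Ideal K[X] where
  carrier := {f | ∀ w ∈ LK F A B, (aeval (S n K) f) (fun g => ι (w g)) = 0}
  add_mem' := by
    intro f g hf hg w hw
    rw [map_add, LinearMap.add_apply, hf w hw, hg w hw, add_zero]
  zero_mem' := by
    intro w _
    simp
  smul_mem' := by
    intro c f hf w hw
    rw [smul_eq_mul, map_mul, Module.End.mul_apply, hf w hw, map_zero]

lemma mem_ann {ι : MvPolynomial (ZMod n) F →+* K} {A B : Finset (ZMod n)} {f : K[X]} :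
    f ∈ ann ι A B ↔ ∀ w ∈ LK F A B, (aeval (S n K) f) (fun g => ι (w g)) = 0 := Iff.rfl

lemma monX (n : ℕ) [NeZero n] (K : Type*) [Field K] : (X ^ n - 1 : K[X]).Monic := by
  have := monic_X_pow_sub_C (1 : K) (NeZero.ne n)
  simpa using this

lemma exists_gen (ι : MvPolynomial (ZMod n) F →+* K) (A B : Finset (ZMod n)) :
    ∃ g₁ : K[X], g₁.Monic ∧ g₁ ∈ ann ι A B ∧ ∀ f ∈ ann ι A B, g₁ ∣ f := by
  set g := Submodule.IsPrincipal.generator (ann ι A B) with hg
  have hXa : (X ^ n - 1 : K[X]) ∈ ann ι A B := fun w _ => aeval_X_pow_sub_one _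
  have hgd : ∀ f ∈ ann ι A B, g ∣ f := fun f hf =>
    (Submodule.IsPrincipal.mem_iff_generator_dvd _).mp hf
  have hg0 : g ≠ 0 := by
    intro h
    have := hgd _ hXa
    rw [h, zero_dvd_iff] at this
    exact (monX n K).ne_zero this
  refine ⟨g * C g.leadingCoeff⁻¹, monic_mul_leadingCoeff_inv hg0, ?_, ?_⟩
  · exact Ideal.mul_mem_right _ _ (Submodule.IsPrincipal.generator_mem _)
  · intro f hf
    have hu : IsUnit (C g.leadingCoeff⁻¹ : K[X]) := by
      rw [isUnit_C]
      exact (inv_ne_zero (leadingCoeff_ne_zero.mpr hg0)).isUnit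
    exact (hu.mul_right_dvd).mpr (hgd f hf)

lemma exists_lift (hs : (X ^ n - 1 : F[X]).Splits) (i : F →+* K) {g₁ : K[X]} (hm : g₁.Monic)
    (hd : g₁ ∣ X ^ n - 1) : ∃ h : F[X], h.map i = g₁ := by
  have hmap : (X ^ n - 1 : F[X]).map i = X ^ n - 1 := by
    simp
  have hsp : g₁.Splits := by
    have hsK := hs.map i
    rw [hmap] at hsK
    exact hsK.of_dvd (monX n K).ne_zero hd
  have := hsp.mem_lift_of_roots_mem_range hm i (by
    intro r hr
    have hr' : r ∈ ((X ^ n - 1 : F[X]).map i).roots := by
      rw [hmap]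
      exact Multiset.mem_of_le (roots.le_of_dvd (monX n K).ne_zero hd) hr
    rw [hs.roots_map] at hr'
    obtain ⟨s, _, rfl⟩ := Multiset.mem_map.mp hr'
    exact ⟨s, rfl⟩)
  obtain ⟨h, hh⟩ := this
  exact ⟨h, hh⟩


/-- derivative of a polynomial vector in `LK` again satisfies the recurrence -/
lemma deriv_mem_code {ι : MvPolynomial (ZMod n) F →+* K} (hι : Function.Injective ι)
    {A B : Finset (ZMod n)} {h : F[X]}
    (hh : ∀ w ∈ LK F A B, (aeval (S n K) (h.map (ι.comp MvPolynomial.C)))
      (fun g => ι (w g)) = 0) (w : ZMod n → MvPolynomial (ZMod n) F) (hw : w ∈ LK F A B)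
    (s : ZMod n) :
    (fun g => ι (MvPolynomial.pderiv s (w g))) ∈ code (h.map (ι.comp MvPolynomial.C)) A := by
  refine Submodule.mem_inf.mpr ⟨?_, ?_⟩
  · intro g hg
    show ι (MvPolynomial.pderiv s (w g)) = 0
    rw [hw.1 g hg, map_zero, map_zero]
  · rw [LinearMap.mem_ker]
    funext g
    have h1 := congrFun (hh w hw) g
    rw [aeval_S_apply] at h1 ⊢
    have h2 : ∑ j ∈ range ((h.map (ι.comp MvPolynomial.C)).natDegree + 1),
        MvPolynomial.C (h.coeff j) * w (g - (j : ZMod n)) = 0 := by
      apply hι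
      rw [map_sum, map_zero, Pi.zero_apply] at *
      rw [← h1]
      refine Finset.sum_congr rfl fun j _ => ?_
      rw [map_mul, coeff_map]
      rfl
    have h3 := congrArg (fun q => ι (MvPolynomial.pderiv s q)) h2
    simp only [map_sum, map_zero] at h3
    rw [Pi.zero_apply, ← h3]
    refine Finset.sum_congr rfl fun j _ => ?_
    rw [coeff_map, Derivation.leibniz, MvPolynomial.pderiv_C, smul_zero, add_zero, smul_eq_mul,
      map_mul]
    rfl

lemma mem_code_of_mem {ι : MvPolynomial (ZMod n) F →+* K}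
    {A B : Finset (ZMod n)} {f : K[X]} (hf : f ∈ ann ι A B)
    (w : ZMod n → MvPolynomial (ZMod n) F) (hw : w ∈ LK F A B) :
    (fun g => ι (w g)) ∈ code f A := by
  refine Submodule.mem_inf.mpr ⟨?_, LinearMap.mem_ker.mpr (hf w hw)⟩
  intro g hg
  show ι (w g) = 0
  rw [hw.1 g hg, map_zero]

/-- The first order condition. -/
lemma pol_mem_ann {ι : MvPolynomial (ZMod n) F →+* K} (hι : Function.Injective ι)
    {A B : Finset (ZMod n)} {h : F[X]}
    (hh : ∀ w ∈ LK F A B, (aeval (S n K) (h.map (ι.comp MvPolynomial.C)))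
      (fun g => ι (w g)) = 0) (v : ZMod n → K) (hv : v ∈ (supp B : Submodule K (ZMod n → K)))
    (hv2 : ∀ w ∈ code (h.map (ι.comp MvPolynomial.C)) A,
      bil (fun g => ι (MvPolynomial.X g)) v w = 0) :
    pol v ∈ ann ι A B := by
  intro w hw
  funext s
  rw [aeval_pol, Pi.zero_apply]
  have h1 : ∀ c ∈ B, ∑ g : ZMod n, ι (MvPolynomial.pderiv s (w g)) * ι (MvPolynomial.X (g + c))
      + ι (w (s - c)) = 0 := by
    intro c hc
    have h2 := congrArg (fun q => ι (MvPolynomial.pderiv s q)) (hw.2 c hc)
    simp only [map_sum, map_zero] at h2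
    rw [← h2]
    have h3 : ∀ g : ZMod n, ι (MvPolynomial.pderiv s (w g * MvPolynomial.X (g + c)))
        = ι (MvPolynomial.pderiv s (w g)) * ι (MvPolynomial.X (g + c))
          + (if g = s - c then ι (w g) else 0) := by
      intro g
      rw [Derivation.leibniz, MvPolynomial.pderiv_X, smul_eq_mul, smul_eq_mul, map_add,
        map_mul, map_mul, add_comm, mul_comm (ι (MvPolynomial.X (g + c)))]
      congr 1
      by_cases hg : g = s - c
      · rw [if_pos hg, hg]
        simp
      · rw [if_neg hg, Pi.single_eq_of_ne, map_zero, mul_zero]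
        intro h
        apply hg
        rw [← h]; ring
    rw [Finset.sum_congr rfl fun g _ => h3 g, Finset.sum_add_distrib]
    simp
  have h4 := hv2 _ (deriv_mem_code hι hh w hw s)
  rw [bil_apply] at h4
  have h5 : ∀ c : ZMod n, v c * ι (w (s - c)) =
      - (v c * ∑ g : ZMod n, ι (MvPolynomial.pderiv s (w g)) * ι (MvPolynomial.X (g + c))) := by
    intro c
    by_cases hc : c ∈ B
    · have := h1 c hc
      rw [← mul_neg]
      congr 1
      linear_combination this
    · rw [hv c hc]
      ring
  rw [Finset.sum_congr rfl fun c _ => h5 c, Finset.sum_neg_distrib, neg_eq_zero]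
  exact h4

lemma mem_code_of_pol_mem {g₁ g₂ : K[X]} (h12 : (X ^ n - 1 : K[X]) = g₁ * g₂)
    {B : Finset (ZMod n)} (v : ZMod n → K) (hv : v ∈ (supp B : Submodule K (ZMod n → K)))
    (hd : g₁ ∣ pol v) : v ∈ code g₂ B := by
  refine Submodule.mem_inf.mpr ⟨hv, LinearMap.mem_ker.mpr ?_⟩
  obtain ⟨u, hu⟩ := hd
  have h1 : v = (aeval (S n K) (pol v)) (Pi.single 0 1) := by
    funext g
    rw [aeval_pol, Finset.sum_eq_single g]
    · simp
    · intro c _ hc
      rw [Pi.single_eq_of_ne, mul_zero]
      intro h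
      apply hc
      rw [sub_eq_zero] at h
      exact h.symm
    · intro h
      exact absurd (Finset.mem_univ _) h
  rw [h1, ← Module.End.mul_apply, ← map_mul, hu, show g₂ * (g₁ * u) = u * (X ^ n - 1) by
    rw [h12]; ring, map_mul, Module.End.mul_apply, aeval_X_pow_sub_one, map_zero]

theorem core (hs : (X ^ n - 1 : F[X]).Splits) (ι : MvPolynomial (ZMod n) F →+* K)
    (hι : Function.Injective ι) (A B : Finset (ZMod n)) (hAB : A.card ≤ B.card)
    (w : ZMod n → MvPolynomial (ZMod n) F) (hw : w ∈ LK F A B) : w = 0 := by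
  by_contra hw0
  have hn : 0 < n := Nat.pos_of_ne_zero (NeZero.ne n)
  obtain ⟨g₁, hg₁m, hg₁a, hg₁d⟩ := exists_gen ι A B
  have hgX : g₁ ∣ X ^ n - 1 := hg₁d _ (fun w _ => aeval_X_pow_sub_one _)
  obtain ⟨h, hh⟩ := exists_lift hs (ι.comp MvPolynomial.C) hg₁m hgX
  obtain ⟨g₂, hg₁₂⟩ := hgX
  have hg₂m : g₂.Monic := hg₁m.of_mul_monic_left (hg₁₂ ▸ monX n K)
  have hdeg : g₁.natDegree + g₂.natDegree = n := by
    have h1 : (X ^ n - 1 : K[X]).natDegree = n := by
      have := natDegree_X_pow_sub_C (n := n) (r := (1 : K))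
      simpa using this
    rw [hg₁₂, hg₁m.natDegree_mul hg₂m] at h1
    exact h1
  subst hh
  have hh : ∀ w ∈ LK F A B, (aeval (S n K) (h.map (ι.comp MvPolynomial.C)))
      (fun g => ι (w g)) = 0 := hg₁a
  set W0 := code (h.map (ι.comp MvPolynomial.C)) A with hW0
  let Φ : (supp B : Submodule K (ZMod n → K)) →ₗ[K] Module.Dual K W0 :=
    (W0.subtype.dualMap.comp (bil (fun g => ι (MvPolynomial.X g)))).comp (supp B).subtype
  have hΦ : ∀ (v : (supp B : Submodule K (ZMod n → K))) (w : W0),
      Φ v w = bil (fun g => ι (MvPolynomial.X g)) v.1 w.1 := fun v w => rfl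
  have hker : Module.finrank K (LinearMap.ker Φ) ≤ Module.finrank K (code g₂ B) := by
    let ψ : LinearMap.ker Φ →ₗ[K] code g₂ B :=
      LinearMap.codRestrict (code g₂ B) ((supp B).subtype.comp (LinearMap.ker Φ).subtype) (by
        rintro ⟨v, hv⟩
        rw [LinearMap.mem_ker] at hv
        refine mem_code_of_pol_mem hg₁₂ v.1 v.2 (hg₁d _ (pol_mem_ann hι hh v.1 v.2 ?_))
        intro w hw
        have := congrArg (fun f => f ⟨w, hw⟩) hv
        exact this)
    have hψ : Function.Injective ψ := by
      intro x y hxy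
      have := congrArg Subtype.val hxy
      exact Subtype.ext (Subtype.ext this)
    exact LinearMap.finrank_le_finrank_of_injective hψ
  have hran : Module.finrank K (LinearMap.range Φ) < Module.finrank K W0 := by
    rw [← Subspace.dual_finrank_eq (V := W0)]
    apply Submodule.finrank_lt
    intro htop
    set w1 : W0 := ⟨fun g => ι (w g), mem_code_of_mem hg₁a w hw⟩ with hw1
    have hw1z : w1 ≠ 0 := by
      intro h0
      apply hw0
      funext g
      apply hι
      have := congrFun (congrArg Subtype.val h0) g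
      simpa [hw1] using this
    apply hw1z
    rw [← Module.forall_dual_apply_eq_zero_iff K]
    intro f
    have hf : f ∈ LinearMap.range Φ := by rw [htop]; trivial
    obtain ⟨v, rfl⟩ := hf
    rw [hΦ, bil_apply]
    refine Finset.sum_eq_zero fun c _ => ?_
    by_cases hc : c ∈ B
    · have := congrArg ι (hw.2 c hc)
      simp only [map_sum, map_zero, map_mul] at this
      rw [show (∑ g : ZMod n, w1.1 g * ι (MvPolynomial.X (g + c))) = 0 from this, mul_zero]
    · rw [v.2 c hc, zero_mul]
  have hrn := LinearMap.finrank_range_add_finrank_ker Φ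
  rw [finrank_supp] at hrn
  have h1 := finrank_code_mul_le hg₁m A
  have h2 := finrank_code_mul_le hg₂m B
  rw [← hW0] at h1
  have h3 : n * B.card < n * (Module.finrank K W0 + Module.finrank K (code g₂ B)) := by
    apply Nat.mul_lt_mul_of_pos_left _ hn
    omega
  have h4 : n * (Module.finrank K W0 + Module.finrank K (code g₂ B)) ≤ n * B.card := by
    rw [Nat.mul_add]
    calc _ ≤ (h.map (ι.comp MvPolynomial.C)).natDegree * A.card + g₂.natDegree * B.card :=
          Nat.add_le_add h1 h2
      _ ≤ (h.map (ι.comp MvPolynomial.C)).natDegree * B.card + g₂.natDegree * B.card := by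
          gcongr
      _ = n * B.card := by rw [← Nat.add_mul, hdeg]
  omega

end Pool.Agent.Helper24.Snev
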