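import Mathlib
import Pool.Agent.Helper24.Snev.GC

set_option autoImplicit false

namespace Pool.Agent.Helper24.Snev

open Finset

variable {n : ℕ} [NeZero n] {F : Type*} [Field F]

/-- Every minor of the generic circulant matrix is non-zero. -/
theorem det_ne_zero (hs : (Polynomial.X ^ n - 1 : Polynomial F).Splits) {k : ℕ}
    (a c : Fin k → ZMod n) (ha : Function.Injective a) (hc : Function.Injective c) :
    (Matrix.of fun i j => (MvPolynomial.X (a i + c j) : MvPolynomial (ZMod n) F)).det ≠ 0 := by
  intro h0
  obtain ⟨u, hu0, hu⟩ := Matrix.exists_vecMul_eq_zero_iff.mpr h0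
  set w : ZMod n → MvPolynomial (ZMod n) F := fun g => ∑ i, if a i = g then u i else 0 with hw
  have hwa : ∀ i, w (a i) = u i := by
    intro i
    rw [hw]
    simp [ha.eq_iff]
  have hmem : w ∈ LK F (univ.image a) (univ.image c) := by
    refine ⟨?_, ?_⟩
    · intro g hg
      rw [hw]
      refine Finset.sum_eq_zero fun i _ => ?_
      rw [if_neg]
      rintro rfl
      exact hg (Finset.mem_image_of_mem _ (Finset.mem_univ i))
    · intro x hx
      obtain ⟨j, _, rfl⟩ := Finset.mem_image.mp hx
      have h1 := congrFun hu j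
      rw [Matrix.vecMul, dotProduct, Pi.zero_apply] at h1
      rw [← h1, hw]
      simp only [Finset.sum_mul, ite_mul, zero_mul]
      rw [Finset.sum_comm]
      refine Finset.sum_congr rfl fun i _ => ?_
      simp
  have := core hs (algebraMap _ (FractionRing (MvPolynomial (ZMod n) F)))
    (IsFractionRing.injective _ _) (univ.image a) (univ.image c)
    (by rw [Finset.card_image_of_injective _ ha, Finset.card_image_of_injective _ hc]) w hmem
  apply hu0
  funext i
  rw [← hwa i, this]
  rfl

/-- in characteristic two the determinant is the permanent -/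
lemma det_char_two {R : Type*} [CommRing R] [CharP R 2] {k : ℕ} (M : Matrix (Fin k) (Fin k) R) :
    M.det = ∑ σ : Equiv.Perm (Fin k), ∏ i, M i (σ i) := by
  rw [← Matrix.det_transpose, Matrix.det_apply]
  refine Finset.sum_congr rfl fun σ _ => ?_
  have : ∀ r : R, (Equiv.Perm.sign σ) • r = r := by
    intro r
    rcases Int.units_eq_one_or (Equiv.Perm.sign σ) with h | h
    · rw [h, one_smul]
    · rw [h, Units.neg_smul, one_smul]
      exact CharTwo.neg_eq r
  rw [this]
  rfl

/-- The swap trick. -/
lemma swap_trick {R : Type*} [CommRing R] [CharP R 2] {ι : Type*} [Fintype ι] [DecidableEq ι]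
    (f : ι → ι → R) (hf : ∀ x y, f x y = f y x) : ∑ x, ∑ y, f x y = ∑ x, f x x := by
  rw [← Finset.sum_product']
  have h1 : ∑ p ∈ (univ : Finset (ι × ι)), f p.1 p.2 =
      ∑ p ∈ univ.filter (fun p : ι × ι => p.1 = p.2), f p.1 p.2 +
      ∑ p ∈ univ.filter (fun p : ι × ι => ¬ p.1 = p.2), f p.1 p.2 :=
    (Finset.sum_filter_add_sum_filter_not _ _ _).symm
  have h2 : ∑ p ∈ univ.filter (fun p : ι × ι => ¬ p.1 = p.2), f p.1 p.2 = 0 := by
    refine Finset.sum_involution (fun p _ => (p.2, p.1)) ?_ ?_ ?_ ?_
    · intro p _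
      show f p.1 p.2 + f p.2 p.1 = 0
      rw [hf p.2 p.1]
      exact CharTwo.add_self_eq_zero _
    · intro p hp _ h
      rw [Finset.mem_filter] at hp
      exact hp.2 (congrArg Prod.fst h).symm
    · intro p hp
      rw [Finset.mem_filter] at hp ⊢
      exact ⟨Finset.mem_univ _, fun h => hp.2 h.symm⟩
    · intro p _
      rfl
  show ∑ p ∈ (univ : Finset ι) ×ˢ (univ : Finset ι), f p.1 p.2 = _
  rw [Finset.univ_product_univ, h1, h2, add_zero]
  symm
  refine Finset.sum_bij (fun x _ => (x, x)) ?_ ?_ ?_ ?_
  · intro x _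
    simp
  · intro x _ y _ h
    exact congrArg Prod.fst h
  · rintro ⟨x, y⟩ h
    rw [Finset.mem_filter] at h
    obtain rfl : x = y := h.2
    exact ⟨x, Finset.mem_univ _, rfl⟩
  · intro x _
    rfl

/-- If no assignment has pairwise distinct sums then all the minors `det (t (a + 2 b))` vanish. -/
theorem det_eq_zero_of_no_transversal {G R : Type*} [AddCommGroup G] [CommRing R] [CharP R 2]
    {k : ℕ} (a b : Fin k → G)
    (hno : ∀ σ : Equiv.Perm (Fin k), ¬ Function.Injective (fun i => a i + b (σ i))) (t : G → R) :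
    (Matrix.of fun i j => t (a i + (2 : ℕ) • b j)).det = 0 := by
  have h1 : ∑ σ : Equiv.Perm (Fin k),
      (Matrix.of fun i j => t (a i + b (σ i) + b j)).det = 0 := by
    refine Finset.sum_eq_zero fun σ _ => ?_
    obtain ⟨i, i', hii, hne⟩ : ∃ i i', a i + b (σ i) = a i' + b (σ i') ∧ i ≠ i' := by
      have := hno σ
      simp only [Function.Injective, not_forall] at this
      obtain ⟨i, i', h, h'⟩ := this
      exact ⟨i, i', h, h'⟩
    refine Matrix.det_zero_of_row_eq hne ?_
    funext j
    simp only [Matrix.of_apply]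
    rw [hii]
  rw [Finset.sum_congr rfl fun σ _ => det_char_two _] at h1
  simp only [Matrix.of_apply] at h1
  rw [swap_trick (fun (σ τ : Equiv.Perm (Fin k)) => ∏ i, t (a i + b (σ i) + b (τ i)))] at h1
  · rw [det_char_two, ← h1]
    refine Finset.sum_congr rfl fun σ _ => Finset.prod_congr rfl fun i _ => ?_
    rw [Matrix.of_apply, two_nsmul, add_assoc]
  · intro σ τ
    refine Finset.prod_congr rfl fun i _ => ?_
    rw [add_right_comm]

/-- Main theorem in terms of families. -/
theorem exists_perm (n : ℕ) [NeZero n] {k : ℕ} (a b : Fin k → ZMod n)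
    (ha : Function.Injective a) (hb : Function.Injective (fun i => (2 : ℕ) • b i)) :
    ∃ σ : Equiv.Perm (Fin k), Function.Injective (fun i => a i + b (σ i)) := by
  by_contra hno
  push Not at hno
  have hs : (Polynomial.X ^ n - 1 : Polynomial (AlgebraicClosure (ZMod 2))).Splits :=
    IsAlgClosed.splits _
  haveI : CharP (AlgebraicClosure (ZMod 2)) 2 := by
    have := charP_of_injective_algebraMap
      (algebraMap (ZMod 2) (AlgebraicClosure (ZMod 2))).injective 2
    exact this
  exact det_ne_zero hs a (fun i => (2 : ℕ) • b i) ha hb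
    (det_eq_zero_of_no_transversal a b hno
      (fun g => (MvPolynomial.X g : MvPolynomial (ZMod n) (AlgebraicClosure (ZMod 2)))))

end Pool.Agent.Helper24.Snev
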