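import Mathlib
import Pool.Agent.Helper24.Snev.Half

set_option autoImplicit false

namespace Pool.Agent.Helper24.Snev

open Finset

lemma two_nsmul_eq_zero {n : ℕ} [NeZero n] (x : ZMod n) (h : (2 : ℕ) • x = 0) :
    x = 0 ∨ x = ((n / 2 : ℕ) : ZMod n) := by
  have h1 : ((2 * x.val : ℕ) : ZMod n) = 0 := by
    rw [Nat.cast_mul, ZMod.natCast_zmod_val, ← nsmul_eq_mul, h]
  rw [ZMod.natCast_eq_zero_iff] at h1
  have h2 := ZMod.val_lt x
  obtain ⟨c, hc⟩ := h1
  have hc2 : c < 2 := by
    by_contra hcon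
    push Not at hcon
    have : n * 2 ≤ n * c := Nat.mul_le_mul_left n hcon
    omega
  interval_cases c
  · left
    rw [← ZMod.val_eq_zero]
    omega
  · right
    have : n / 2 = x.val := by omega
    rw [this, ZMod.natCast_zmod_val]

/-- From families to sets. -/
lemma exists_bij {n : ℕ} [NeZero n] (A B : Finset (ZMod n)) (hc : A.card = B.card)
    (hB : ∀ b ∈ B, ∀ b' ∈ B, (2 : ℕ) • b = (2 : ℕ) • b' → b = b') :
    ∃ f : ZMod n → ZMod n, Set.BijOn f (A : Set (ZMod n)) (B : Set (ZMod n)) ∧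
      Set.InjOn (fun a => a + f a) (A : Set (ZMod n)) := by
  set eA := A.equivFin with heA
  set eB := B.equivFinOfCardEq hc.symm with heB
  obtain ⟨σ, hσ⟩ := exists_perm n (fun i => (eA.symm i : ZMod n)) (fun i => (eB.symm i : ZMod n))
    (Subtype.val_injective.comp eA.symm.injective)
    (by
      intro i j hij
      have := hB _ (eB.symm i).2 _ (eB.symm j).2 hij
      exact eB.symm.injective (Subtype.ext this))
  refine ⟨fun x => if h : x ∈ A then (eB.symm (σ (eA ⟨x, h⟩)) : ZMod n) else 0, ⟨?_, ?_, ?_⟩, ?_⟩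
  · intro x hx
    have hx' : x ∈ A := hx
    simp only [hx', dif_pos]
    exact (eB.symm _).2
  · intro x hx y hy hxy
    have hx' : x ∈ A := hx
    have hy' : y ∈ A := hy
    simp only [hx', hy', dif_pos] at hxy
    have h1 := eB.symm.injective (Subtype.ext hxy)
    have h2 := eA.injective (σ.injective h1)
    exact congrArg Subtype.val h2
  · intro y hy
    have hy' : y ∈ B := hy
    refine ⟨(eA.symm (σ.symm (eB ⟨y, hy'⟩)) : ZMod n), (eA.symm _).2, ?_⟩
    simp
  · intro x hx y hy hxy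
    have hx' : x ∈ A := hx
    have hy' : y ∈ A := hy
    simp only [hx', hy', dif_pos] at hxy
    have h1 := @hσ (eA ⟨x, hx'⟩) (eA ⟨y, hy'⟩) (by simpa using hxy)
    exact congrArg Subtype.val (eA.injective h1)

lemma antipodal_of_no {n : ℕ} [NeZero n] (A B : Finset (ZMod n)) (hc : A.card = B.card)
    (hno : ¬ ∃ f : ZMod n → ZMod n, Set.BijOn f (A : Set (ZMod n)) (B : Set (ZMod n)) ∧
      Set.InjOn (fun a => a + f a) (A : Set (ZMod n))) :
    ∃ b ∈ B, b + ((n / 2 : ℕ) : ZMod n) ∈ B := by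
  by_contra hcon
  push Not at hcon
  apply hno
  refine exists_bij A B hc fun b hb b' hb' h => ?_
  have h1 : (2 : ℕ) • (b' - b) = 0 := by
    rw [nsmul_sub, h, sub_self]
  rcases two_nsmul_eq_zero _ h1 with h2 | h2
  · exact (sub_eq_zero.mp h2).symm
  · exfalso
    apply hcon b hb
    rw [← h2, add_sub_cancel]
    exact hb'

/-- swapping the roles of the two sets -/
lemma swap_no {n : ℕ} [NeZero n] (A B : Finset (ZMod n))
    (hno : ¬ ∃ f : ZMod n → ZMod n, Set.BijOn f (A : Set (ZMod n)) (B : Set (ZMod n)) ∧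
      Set.InjOn (fun a => a + f a) (A : Set (ZMod n))) :
    ¬ ∃ f : ZMod n → ZMod n, Set.BijOn f (B : Set (ZMod n)) (A : Set (ZMod n)) ∧
      Set.InjOn (fun a => a + f a) (B : Set (ZMod n)) := by
  rintro ⟨f, hf, hi⟩
  apply hno
  have hinv := hf.invOn_invFunOn
  refine ⟨Function.invFunOn f (B : Set (ZMod n)), hinv.symm.bijOn ?_ ?_, ?_⟩
  · exact hf.surjOn.mapsTo_invFunOn
  · exact hf.mapsTo
  · intro x hx y hy hxy
    have hx' := hf.surjOn.mapsTo_invFunOn hx
    have hy' := hf.surjOn.mapsTo_invFunOn hy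
    have h1 := hi hx' hy' (by
      show _ + f _ = _ + f _
      rw [hinv.2 hx, hinv.2 hy, add_comm, add_comm (Function.invFunOn f _ y)]
      exact hxy)
    rw [← hinv.2 hx, h1, hinv.2 hy]

end Pool.Agent.Helper24.Snev
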